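import Pool.Agent.H519.P4.Par
import Pool.Agent.H519.G3.Rk

/-!
# MP_577099_nt: the parity conjecture for most curves of two families of cubic twists

`E_D : y² + D y = x³` over `ℚ`, the curve `3`-isogenous to `x³ + y³ = D`.  Two families:

* tame: `D` cube-free, prime to `3`, not `±1` modulo `9`, exactly one prime factor `2` modulo `3` (any
  number of prime factors `1` modulo `3`);
* wild: `D = 3 m`, `m > 1` squarefree, all prime factors `1` modulo `3`.

`D` does not split if it is not a product `d₀ d₁ d₂` of coprime factors, at least two of them different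
from `1`, such that `d₁ d₂²`, `d₂ d₀²`, `d₀ d₁²` are cubes modulo the primes dividing `d₀`, `d₁`, `d₂`.

* The `L`-series of `E_D` is entire for all `D` of the families.
* If `D` does not split, then `E_D(ℚ)` is finite, `L_{E_D}(1/2) ≠ 0` (the normalisation of the problem),
  the sign `w` in any functional equation of `Λ_{E_D}` is `+1`, and `(-1)^{r(E_D)} = w`.
* The share of the `D` which do not split is exactly `p = ∏_{i ≥ 1} (1 - 3^{-i}) = 0.5601…` in each of the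
  two families and in their union.

So the parity conjecture holds for more than `56 %` of the curves of the families.
-/

set_option autoImplicit false

open scoped Classical

namespace Pool.Agent.Results.MP_577099_nt.MostCubicTwists

/-- the tame family -/
def Tame (D : ℕ) : Prop := (D ≠ 0 ∧ ¬ 3 ∣ D ∧ ∀ p : ℕ, p.Prime → ¬ p ^ 3 ∣ D) ∧
  D % 9 ≠ 1 ∧ D % 9 ≠ 8 ∧
  ∃ q : ℕ, q.Prime ∧ q % 3 = 2 ∧ q ∣ D ∧ ∀ p : ℕ, p.Prime → p ∣ D → p ≠ q → p % 3 = 1

/-- the wild family -/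
def Wild (D : ℕ) : Prop :=
  ∃ m : ℕ, D = 3 * m ∧ 1 < m ∧ Squarefree m ∧ ∀ p : ℕ, p.Prime → p ∣ m → p % 3 = 1

/-- `D` is not a product `d₀ d₁ d₂` of coprime factors, at least two of them different from `1`,
such that `d₁ d₂²`, `d₂ d₀²`, `d₀ d₁²` are cubes modulo the primes dividing `d₀`, `d₁`, `d₂` -/
def NoSplit (D : ℕ) : Prop :=
  ∀ d : ZMod 3 → ℕ, ∏ c, d c = D → (∀ c c', c ≠ c' → Nat.Coprime (d c) (d c')) →
    (∀ (c : ZMod 3) (p : ℕ), p.Prime → p ∣ d c →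
      ∃ x : ℤ, (p : ℤ) ∣ (d (c + 1) : ℤ) * (d (c + 2) : ℤ) ^ 2 - x ^ 3) →
    ∃ c, ∀ c', c' ≠ c → d c' = 1

/-- the curve `E_D : y² + D y = x³` -/
def E (D : ℕ) : WeierstrassCurve ℚ := ⟨0, 0, (D : ℚ), 0, 0⟩

/-- the rank of `E_D(ℚ)` -/
noncomputable def rank (D : ℕ) : ℕ := Module.finrank ℤ (E D).toAffine.Point

/-- `a_p = p + 1 - #E_D(𝔽_p)`, computed from the `p - a_p` affine points -/
noncomputable def a (D p : ℕ) : ℤ :=
  (p : ℤ) - (Nat.card {q : ZMod p × ZMod p // q.2 ^ 2 + (D : ZMod p) * q.2 = q.1 ^ 3} : ℤ)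

/-- `L` is entire and equal to the Euler product of `E_D` for `Re s > 1`, in the normalisation of the
problem (centre `1/2`).  The equation `y² + D y = x³` is minimal, and the reduction is additive at the bad
primes, which are `3` and the prime factors of `D`. -/
def IsLSeries (D : ℕ) (L : ℂ → ℂ) : Prop :=
  Differentiable ℂ L ∧ ∀ s : ℂ, 1 < s.re →
    HasProd (fun p : Nat.Primes => (1 - (a D p : ℂ) * ((p : ℕ) : ℂ) ^ (-(s + 1 / 2)) +
      (if (p : ℕ) ∣ 3 * D then 0 else ((p : ℕ) : ℂ) ^ (-(2 * s))))⁻¹) (L s)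

/-- `Λ(s) = N^{s/2} (2π)^{-s} Γ(s + 1/2) L(s)` -/
noncomputable def Lam (N : ℕ) (L : ℂ → ℂ) (s : ℂ) : ℂ :=
  (N : ℂ) ^ (s / 2) * (2 * (Real.pi : ℂ)) ^ (-s) * Complex.Gamma (s + 1 / 2) * L s

/-- `w` is a sign in a functional equation `Λ(s) = w Λ(1 - s)` in the critical strip, for some
conductor `N > 0` -/
def IsRootNumber (D : ℕ) (w : ℤ) : Prop :=
  (w = 1 ∨ w = -1) ∧ ∃ (N : ℕ) (L : ℂ → ℂ), 0 < N ∧ IsLSeries D L ∧
    ∀ s : ℂ, 0 ≤ s.re → s.re ≤ 1 → Lam N L s = w * Lam N L (1 - s)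

/-- the parity conjecture for `E_D` -/
def Parity (D : ℕ) : Prop := ∀ w : ℤ, IsRootNumber D w → (-1) ^ rank D = w

/-- the number of the `D` with the property `Q`, `1 ≤ D ≤ X` -/
noncomputable def count (Q : ℕ → Prop) (X : ℕ) : ℕ := ((Finset.Icc 1 X).filter Q).card

/-- `p = ∏_{i ≥ 1} (1 - 3^{-i})` -/
noncomputable def c : ℝ := ∏' i : ℕ, (1 - (1 / 3 : ℝ) ^ (i + 1))

open Pool.Agent.Y703.CT in
lemma a_eq (D p : ℕ) : a D p = Pool.Agent.W97.MT.ap (WD (D : ℤ)) p := by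
  unfold a Pool.Agent.W97.MT.ap Pool.Agent.W97.MT.affCount
  congr 2
  refine Nat.card_congr (Equiv.subtypeEquivRight fun q => ?_)
  rw [WeierstrassCurve.Affine.equation_iff]
  simp [WD]

open Pool.Agent.Y703.CT in
lemma dvd_iff {D p : ℕ} (hp : p.Prime) : ((p : ℤ) ∣ (WD (D : ℤ)).Δ) ↔ p ∣ 3 * D := by
  rw [Pool.Agent.H462.N9.Short.wd_delta]
  have hpp : Prime (p : ℤ) := Nat.prime_iff_prime_int.1 hp
  constructor
  · intro h
    rcases hpp.dvd_mul.1 h with h1 | h1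
    · rw [dvd_neg] at h1
      have h2 : (p : ℤ) ∣ (3 : ℤ) ^ 3 := by norm_num; exact h1
      have h3 : (p : ℤ) ∣ 3 := hpp.dvd_of_dvd_pow h2
      exact (by exact_mod_cast h3 : p ∣ 3).trans (dvd_mul_right _ _)
    · have h3 : (p : ℤ) ∣ (D : ℤ) := hpp.dvd_of_dvd_pow h1
      exact (by exact_mod_cast h3 : p ∣ D).trans (dvd_mul_left _ _)
  · intro h
    rcases (Nat.Prime.dvd_mul hp).1 h with h1 | h1
    · have h2 : (p : ℤ) ∣ 3 := by exact_mod_cast h1
      refine Dvd.dvd.mul_right ?_ _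
      rw [dvd_neg]
      exact h2.trans (by norm_num)
    · have h2 : (p : ℤ) ∣ (D : ℤ) := by exact_mod_cast h1
      exact Dvd.dvd.mul_left (h2.trans (dvd_pow_self _ (by norm_num))) _

open Pool.Agent.Y703.CT in
/-- the two normalisations -/
lemma isL_iff (D : ℕ) (f : ℂ → ℂ) :
    IsL (WD (D : ℤ)) f ↔ IsLSeries D (fun s => f (s + 1 / 2)) := by
  have key : ∀ s : ℂ, (fun p : Nat.Primes => (1 - (a D p : ℂ) * ((p : ℕ) : ℂ) ^ (-(s + 1 / 2)) +
      (if (p : ℕ) ∣ 3 * D then 0 else ((p : ℕ) : ℂ) ^ (-(2 * s))))⁻¹) =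
      fun p : Nat.Primes => (1 - (Pool.Agent.W97.MT.ap (WD (D : ℤ)) p : ℂ) *
        ((p : ℕ) : ℂ) ^ (-(s + 1 / 2)) +
      (if ((p : ℕ) : ℤ) ∣ (WD (D : ℤ)).Δ then 0 else
        ((p : ℕ) : ℂ) ^ (1 - 2 * (s + 1 / 2))))⁻¹ := by
    intro s
    funext p
    rw [a_eq, if_congr (dvd_iff (D := D) p.2).symm rfl rfl]
    have e : 1 - 2 * (s + 1 / 2) = -(2 * s) := by ring
    rw [e]
  constructor
  · rintro ⟨h1, h2⟩
    refine ⟨h1.comp (differentiable_id.add_const _), fun s hs => ?_⟩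
    rw [key s]
    refine h2 (s + 1 / 2) ?_
    rw [Complex.add_re]
    norm_num
    linarith
  · rintro ⟨h1, h2⟩
    refine ⟨?_, fun s hs => ?_⟩
    · have h3 := h1.comp (differentiable_id.sub_const (1 / 2 : ℂ))
      have e : ((fun s => f (s + 1 / 2)) ∘ fun x : ℂ => id x - 1 / 2) = f := by
        funext s
        simp
      rwa [e] at h3
    · have h3 := h2 (s - 1 / 2) (by rw [Complex.sub_re]; norm_num; linarith)
      rw [key (s - 1 / 2)] at h3
      have e : s - 1 / 2 + 1 / 2 = s := by ring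
      simp only [e] at h3
      exact h3

open Pool.Agent.Y703.CT in
lemma E_eq (D : ℕ) : EQ (WD (D : ℤ)) = E D := by
  unfold EQ WD E WeierstrassCurve.map
  simp

open Pool.Agent.Y703.CT in
/-- rank zero and sign `+1` -/
lemma good {D : ℕ} (h1 : Finite (EQ (WD (D : ℤ))).toAffine.Point) {f : ℂ → ℂ}
    (hf : IsL (WD (D : ℤ)) f) (h2 : f 1 ≠ 0) :
    Finite (E D).toAffine.Point ∧ rank D = 0 ∧ (∀ L, IsLSeries D L → L (1 / 2) ≠ 0) ∧
      (∀ w, IsRootNumber D w → w = 1) ∧ Parity D := by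
  rw [E_eq] at h1
  have hr : rank D = 0 := by
    unfold rank
    have h3 : ∀ x : (E D).toAffine.Point, ∃ n : ℤ, n ≠ 0 ∧ n • x = 0 := by
      intro x
      exact isOfFinAddOrder_iff_zsmul_eq_zero.1 (isOfFinAddOrder_of_finite x)
    rw [Module.finrank_eq_zero_iff]
    exact h3
  have hL : ∀ L, IsLSeries D L → L (1 / 2) ≠ 0 := by
    intro L h3
    have h4 : IsL (WD (D : ℤ)) (fun s => L (s - 1 / 2)) := by
      rw [isL_iff]
      have e : (fun s : ℂ => L (s + 1 / 2 - 1 / 2)) = L := by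
        funext s
        rw [add_sub_cancel_right]
      rw [e]
      exact h3
    have h5 := Pool.Agent.H519.P4.isL_unique hf h4
    rw [h5] at h2
    have e2 : (1 : ℂ) - 1 / 2 = 1 / 2 := by norm_num
    simp only [e2] at h2
    exact h2
  have hw : ∀ w, IsRootNumber D w → w = 1 := by
    rintro w ⟨h3, N, L, hN, h4, h5⟩
    have h6 := h5 (1 / 2) (by norm_num) (by norm_num)
    have e2 : (1 : ℂ) - 1 / 2 = 1 / 2 := by norm_num
    rw [e2] at h6
    have h7 : Lam N L (1 / 2) ≠ 0 := by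
      unfold Lam
      have e3 : (1 / 2 : ℂ) + 1 / 2 = 1 := by norm_num
      rw [e3, Complex.Gamma_one, mul_one]
      refine mul_ne_zero (mul_ne_zero ?_ ?_) (hL L h4)
      · rw [Ne, Complex.cpow_eq_zero_iff]
        rintro ⟨h8, -⟩
        have : N ≠ 0 := hN.ne'
        exact this (by exact_mod_cast h8)
      · rw [Ne, Complex.cpow_eq_zero_iff]
        rintro ⟨h8, -⟩
        have h9 : (Real.pi : ℂ) ≠ 0 := by exact_mod_cast Real.pi_ne_zero
        exact (mul_ne_zero two_ne_zero h9) h8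
    have h8 : (w : ℂ) = 1 := by
      have h9 : (1 - (w : ℂ)) * Lam N L (1 / 2) = 0 := by linear_combination h6
      have h10 := (mul_eq_zero.1 h9).resolve_right h7
      linear_combination -h10
    exact_mod_cast h8
  refine ⟨h1, hr, hL, hw, fun w hw' => ?_⟩
  rw [hr, pow_zero, hw w hw']

/-! ### counting -/

/-- the shares in the union of two families -/
lemma mix {a₁ b₁ a₂ b₂ : ℕ → ℝ} {l : ℝ} (h1 : ∀ᶠ X in Filter.atTop, 0 < b₁ X)
    (h2 : ∀ᶠ X in Filter.atTop, 0 < b₂ X)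
    (l1 : Filter.Tendsto (fun X => a₁ X / b₁ X) Filter.atTop (nhds l))
    (l2 : Filter.Tendsto (fun X => a₂ X / b₂ X) Filter.atTop (nhds l)) :
    Filter.Tendsto (fun X => (a₁ X + a₂ X) / (b₁ X + b₂ X)) Filter.atTop (nhds l) := by
  rw [Metric.tendsto_nhds] at l1 l2 ⊢
  intro ε hε
  filter_upwards [h1, h2, l1 ε hε, l2 ε hε] with X g1 g2 g3 g4
  rw [Real.dist_eq, abs_lt] at g3 g4 ⊢
  have e1 : a₁ X / b₁ X - l = (a₁ X - l * b₁ X) / b₁ X := by field_simp
  have e2 : a₂ X / b₂ X - l = (a₂ X - l * b₂ X) / b₂ X := by field_simp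
  have hs : 0 < b₁ X + b₂ X := by linarith
  have e3 : (a₁ X + a₂ X) / (b₁ X + b₂ X) - l =
      ((a₁ X - l * b₁ X) + (a₂ X - l * b₂ X)) / (b₁ X + b₂ X) := by field_simp; ring
  rw [e1] at g3
  rw [e2] at g4
  rw [e3]
  rw [lt_div_iff₀ g1, div_lt_iff₀ g1] at g3
  rw [lt_div_iff₀ g2, div_lt_iff₀ g2] at g4
  constructor
  · rw [lt_div_iff₀ hs]
    linarith [g3.1, g4.1]
  · rw [div_lt_iff₀ hs]
    linarith [g3.2, g4.2]

lemma count_or {P Q : ℕ → Prop} (h : ∀ D, P D → ¬ Q D) (X : ℕ) :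
    count (fun D => P D ∨ Q D) X = count P X + count Q X := by
  unfold count
  have e : (Finset.Icc 1 X).filter (fun D => P D ∨ Q D) =
      (Finset.Icc 1 X).filter P ∪ (Finset.Icc 1 X).filter Q := by
    ext D
    simp only [Finset.mem_filter, Finset.mem_union]
    tauto
  have hd : Disjoint ((Finset.Icc 1 X).filter P) ((Finset.Icc 1 X).filter Q) := by
    rw [Finset.disjoint_filter]
    exact fun D _ hP hQ => h D hP hQ
  rw [← Finset.card_union_of_disjoint hd, ← e]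
  refine congrArg Finset.card ?_
  ext D
  simp only [Finset.mem_filter]

lemma not_both {D : ℕ} (h : Tame D) : ¬ Wild D := by
  rintro ⟨m, rfl, -⟩
  exact h.1.2.1 (dvd_mul_right _ _)

lemma wild_sq {m : ℕ} (h1 : 1 < m) (h2 : Squarefree m) (h3 : ∀ p : ℕ, p.Prime → p ∣ m → p % 3 = 1) :
    Pool.Agent.H462.N9.Law.Sq m ∧ m ≠ 1 := ⟨⟨h2, h3⟩, h1.ne'⟩

lemma count_wild (P : ℕ → Prop) (X : ℕ) :
    count (fun D => Wild D ∧ P D) X = {m ∈ Pool.Agent.H462.N9.Law.Fa (X / 3) | P (3 * m)}.ncard := by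
  unfold count
  have hinj : Function.Injective (fun m : ℕ => 3 * m) := fun a b h => by
    have : 3 * a = 3 * b := h
    omega
  rw [← Set.ncard_image_of_injective _ hinj, ← Set.ncard_coe_finset]
  congr 1
  ext D
  simp only [Finset.coe_filter, Finset.mem_Icc, Set.mem_ofPred_eq, Set.mem_image]
  constructor
  · rintro ⟨⟨h1, h2⟩, ⟨m, rfl, g1, g2, g3⟩, h3⟩
    refine ⟨m, ⟨⟨?_, g1, g2, g3⟩, h3⟩, rfl⟩
    rw [Nat.le_div_iff_mul_le (by norm_num)]
    omega
  · rintro ⟨m, ⟨⟨g0, g1, g2, g3⟩, h3⟩, rfl⟩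
    rw [Nat.le_div_iff_mul_le (by norm_num)] at g0
    exact ⟨⟨by omega, by omega⟩, ⟨m, rfl, g1, g2, g3⟩, h3⟩

lemma count_wild' (X : ℕ) : count Wild X = (Pool.Agent.H462.N9.Law.Fa (X / 3)).ncard := by
  have h := count_wild (fun _ => True) X
  simp only [and_true] at h
  exact h

lemma low_wild : ∃ c : ℝ, 0 < c ∧ ∃ X₀ : ℕ, ∀ X : ℕ, X₀ ≤ X →
    c * X / Real.sqrt (Real.log X) ≤ (count Wild X : ℝ) := by
  obtain ⟨c, X₀, hc, h⟩ := Pool.Agent.H462.N9.Law.fa_low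
  refine ⟨c / 6, by positivity, 3 * X₀ + 9, fun X hX => ?_⟩
  have hY : X₀ ≤ X / 3 := by omega
  have h1 := h (X / 3) hY
  rw [count_wild']
  refine le_trans ?_ h1
  have hX3 : 3 ≤ X / 3 := by omega
  have hr3 : (3 : ℝ) ≤ ((X / 3 : ℕ) : ℝ) := by exact_mod_cast hX3
  have hle : X / 3 ≤ X := Nat.div_le_self _ _
  have hl0 : 0 < Real.log ((X / 3 : ℕ) : ℝ) := Real.log_pos (by linarith)
  have hl1 : Real.log ((X / 3 : ℕ) : ℝ) ≤ Real.log X :=
    Real.log_le_log (by linarith) (by exact_mod_cast hle)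
  have hl2 : 0 < Real.log X := lt_of_lt_of_le hl0 hl1
  rw [Real.rpow_neg hl0.le, ← Real.sqrt_eq_rpow, div_eq_mul_inv]
  have h6 : (X : ℝ) ≤ 6 * ((X / 3 : ℕ) : ℝ) := by exact_mod_cast (by omega : X ≤ 6 * (X / 3))
  have hs1 : (Real.sqrt (Real.log X))⁻¹ ≤ (Real.sqrt (Real.log ((X / 3 : ℕ) : ℝ)))⁻¹ :=
    inv_anti₀ (Real.sqrt_pos.2 hl0) (Real.sqrt_le_sqrt hl1)
  have hs0 : 0 ≤ (Real.sqrt (Real.log X))⁻¹ := by positivity
  have h7 : c / 6 * X ≤ c * ((X / 3 : ℕ) : ℝ) := by nlinarith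
  exact mul_le_mul h7 hs1 hs0 (by positivity)

lemma low_tame : ∃ c : ℝ, 0 < c ∧ ∃ X₀ : ℕ, ∀ X : ℕ, X₀ ≤ X →
    c * X / Real.sqrt (Real.log X) ≤ (count Tame X : ℝ) := Pool.Agent.R419.CF.low

lemma pos_of_low {P : ℕ → Prop} (h : ∃ c : ℝ, 0 < c ∧ ∃ X₀ : ℕ, ∀ X : ℕ, X₀ ≤ X →
    c * X / Real.sqrt (Real.log X) ≤ (count P X : ℝ)) :
    ∀ᶠ X : ℕ in Filter.atTop, (0 : ℝ) < (count P X : ℝ) := by
  obtain ⟨c, hc, X₀, h⟩ := h
  filter_upwards [Filter.eventually_ge_atTop (max X₀ 3)] with X hX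
  refine lt_of_lt_of_le ?_ (h X ((le_max_left _ _).trans hX))
  have h3 : 3 ≤ X := (le_max_right _ _).trans hX
  have h4 : (3 : ℝ) ≤ X := by exact_mod_cast h3
  have h5 : 0 < Real.log X := Real.log_pos (by linarith)
  positivity

lemma share_tame : Filter.Tendsto (fun X : ℕ =>
    (count (fun D => Tame D ∧ NoSplit D) X : ℝ) / (count Tame X : ℝ)) Filter.atTop (nhds c) := by
  have h := Pool.Agent.R419.CF.t_FIN
  refine h.congr fun X => ?_
  unfold count
  congr 3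
  ext D
  simp only [Finset.mem_filter]
  exact and_congr_right fun _ => Iff.rfl

lemma share_wild : Filter.Tendsto (fun X : ℕ =>
    (count (fun D => Wild D ∧ NoSplit D) X : ℝ) / (count Wild X : ℝ)) Filter.atTop (nhds c) := by
  have h1 := (Pool.Agent.H462.N9.Law.law 0).comp
    (Nat.tendsto_div_const_atTop (by norm_num : (3 : ℕ) ≠ 0))
  rw [Pool.Agent.H462.N9.Law.ur_zero] at h1
  refine h1.congr fun X => ?_
  simp only [Function.comp]
  rw [count_wild NoSplit X, count_wild']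
  congr 3
  ext m
  simp only [Set.mem_ofPred_eq]
  refine and_congr_right fun hm => ?_
  have h2 := hm.2.1
  have h3 := Pool.Agent.H462.N9.Law.noSplit_iff (D := 3 * m) (by omega) (by omega)
  rw [zero_add, pow_one]
  exact h3.symm

/-- **Main theorem.** -/
theorem result :
    -- (1) the `L`-series
    (∀ D : ℕ, Tame D ∨ Wild D → ∃ L, IsLSeries D L) ∧
    -- (2) the parity conjecture if `D` does not split
    (∀ D : ℕ, Tame D ∨ Wild D → NoSplit D → Finite (E D).toAffine.Point ∧ rank D = 0 ∧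
      (∀ L, IsLSeries D L → L (1 / 2) ≠ 0) ∧ (∀ w, IsRootNumber D w → w = 1) ∧ Parity D) ∧
    -- (3) the size of the families
    (∃ c : ℝ, 0 < c ∧ ∃ X₀ : ℕ, ∀ X : ℕ, X₀ ≤ X →
      c * X / Real.sqrt (Real.log X) ≤ (count Tame X : ℝ) ∧
      c * X / Real.sqrt (Real.log X) ≤ (count Wild X : ℝ)) ∧
    -- (4) the share of the `D` which do not split
    (0.56 < c ∧ c < 0.5602) ∧
    Filter.Tendsto (fun X : ℕ =>
      (count (fun D => Tame D ∧ NoSplit D) X : ℝ) / (count Tame X : ℝ)) Filter.atTop (nhds c) ∧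
    Filter.Tendsto (fun X : ℕ =>
      (count (fun D => Wild D ∧ NoSplit D) X : ℝ) / (count Wild X : ℝ)) Filter.atTop (nhds c) ∧
    Filter.Tendsto (fun X : ℕ =>
      (count (fun D => (Tame D ∨ Wild D) ∧ NoSplit D) X : ℝ) /
        (count (fun D => Tame D ∨ Wild D) X : ℝ)) Filter.atTop (nhds c) ∧
    -- (5) the parity conjecture for more than 56 percent
    (∃ X₀ : ℕ, ∀ X : ℕ, X₀ ≤ X →
      0.56 * (count (fun D => Tame D ∨ Wild D) X : ℝ) ≤
        (count (fun D => (Tame D ∨ Wild D) ∧ rank D = 0 ∧ Parity D) X : ℝ)) := by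
  have key : ∀ D : ℕ, Tame D ∨ Wild D → NoSplit D → Finite (E D).toAffine.Point ∧ rank D = 0 ∧
      (∀ L, IsLSeries D L → L (1 / 2) ≠ 0) ∧ (∀ w, IsRootNumber D w → w = 1) ∧ Parity D := by
    rintro D (hD | ⟨m, rfl, g1, g2, g3⟩) hN
    · obtain ⟨h1, f, hf, h2⟩ := Pool.Agent.H519.P4.tame hD hN
      exact good h1 hf h2
    · obtain ⟨hs, hne⟩ := wild_sq g1 g2 g3
      obtain ⟨h1, f, hf, h2⟩ := Pool.Agent.H519.P4.wild hs hne hN
      exact good h1 hf h2
  have hc0 : (0.56 : ℝ) < c := Pool.Agent.Y461.CX.t_C3.2.2.2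
  have hall : Filter.Tendsto (fun X : ℕ =>
      (count (fun D => (Tame D ∨ Wild D) ∧ NoSplit D) X : ℝ) /
        (count (fun D => Tame D ∨ Wild D) X : ℝ)) Filter.atTop (nhds c) := by
    refine (mix (pos_of_low low_tame) (pos_of_low low_wild) share_tame share_wild).congr
      fun X => ?_
    have e1 := count_or (P := Tame) (Q := Wild) (fun D h => not_both h) X
    have e2 := count_or (P := fun D => Tame D ∧ NoSplit D) (Q := fun D => Wild D ∧ NoSplit D)
      (fun D h g => not_both h.1 g.1) X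
    have e3 : (fun D => Tame D ∧ NoSplit D ∨ Wild D ∧ NoSplit D) =
        fun D => (Tame D ∨ Wild D) ∧ NoSplit D := by
      funext D
      exact propext or_and_right.symm
    rw [e3] at e2
    rw [e1, e2]
    push_cast
    rfl
  refine ⟨?_, key, ?_, ⟨hc0, Pool.Agent.H462.N9.Law.c3_lt⟩, share_tame, share_wild, hall, ?_⟩
  · rintro D (hD | ⟨m, rfl, g1, g2, g3⟩)
    · obtain ⟨-, f, hf, -⟩ := Pool.Agent.Y703.CT.fin_all hD
      exact ⟨_, (isL_iff D f).1 hf⟩
    · obtain ⟨hs, hne⟩ := wild_sq g1 g2 g3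
      obtain ⟨-, f, hf, -⟩ := Pool.Agent.H462.N9.One.one (hs.cls hne)
      exact ⟨_, (isL_iff (3 * m) f).1 hf⟩
  · obtain ⟨c₁, hc₁, X₁, h1⟩ := low_tame
    obtain ⟨c₂, hc₂, X₂, h2⟩ := low_wild
    refine ⟨min c₁ c₂, lt_min hc₁ hc₂, max X₁ X₂, fun X hX => ⟨?_, ?_⟩⟩
    · refine le_trans ?_ (h1 X ((le_max_left _ _).trans hX))
      gcongr
      exact min_le_left _ _
    · refine le_trans ?_ (h2 X ((le_max_right _ _).trans hX))
      gcongr
      exact min_le_right _ _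
  · obtain ⟨X₀, h⟩ := Pool.Agent.H462.N9.Law.share_of hall (c - 0.56) (by linarith)
    refine ⟨X₀, fun X hX => ?_⟩
    have h1 := h X hX
    have e : c - (c - 0.56) = 0.56 := by ring
    rw [e] at h1
    refine h1.trans ?_
    norm_cast
    unfold count
    refine Finset.card_le_card fun D hD => ?_
    simp only [Finset.mem_filter] at hD ⊢
    obtain ⟨g1, g2, g3⟩ := hD
    have g4 := key D g2 g3
    exact ⟨g1, g2, g4.2.1, g4.2.2.2.2⟩

end Pool.Agent.Results.MP_577099_nt.MostCubicTwists
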