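import Pool.Agent.H468.G4.Cv
import Pool.Agent.H468.G4.Law
import Pool.Agent.H468.G4.Cov2
import Pool.Agent.H743.X17.Fin
import Pool.Agent.H114.X21.All
import Pool.Agent.H114.X21.P.SQD
import Pool.Graph.R_pool_sql_team_seeded_63374d34.N916.GB.Num

/-!
# MP_577099_nt: the parity conjecture for exact proportions of the quadratic twists of ALL the quadratic twists of
# `17a2`, `X_0(15)`, `X_0(21)`, `X_0(24)`

`E_{j,e} : y² = x³ + A j e x + B j e` (`j = 0, 1, 2, 3`) is the quadratic twist by the squarefree integer `e` of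
`17a2 : y² = x³ - 7371 x - 240570`, `X_0(15) : y² = x³ - 12987 x - 263466`, `X_0(21) : y² = x³ - 5211 x - 31050`,
`X_0(24) : y² = x³ - 351 x + 1890`: no complex multiplication, four different isogeny classes.

`Good W`: `W(ℚ)` is finite and `Ш(W/ℚ)[2^∞] = 0`, and for a minimal equation of `W` the L-series (centre `1/2`) is
entire, `L(1/2) ≠ 0`, and every sign `w` in a functional equation `Λ(s) = w Λ(1 - s)` satisfies `w = 1` and
`(-1)^{r(W)} = w`: Q1 holds for `W`, with `r(W) = 0`, `w = 1`.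

(1) In each class of the `d` given by finitely many places, among them `∞, 2, 3, 5, 7, 17`, for all finite sets `T` of `e`
with `e d₀` in `Fam 0` (this says that the root number is `1`) and `T'` of `e` with `e d₀` in some `Fam j`,
`j = 1, 2, 3`, the proportion of the `d` for which `{e ∈ T : E_{0,e}^d Good} = U` and for all `e ∈ T'` and ALL those `j`:
`E_{j,e}^d` Good iff `e ∈ U'`, is exactly `c^|U| (1 - c)^|T \ U| η^|U'| (1 - η)^|T' \ U'|`.
(2) For every finite set of the `E_{j,e}` with a common `d₀` the `d` for which Q1 holds for ALL the `E_{j,e}^d` at once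
have positive lower density.
(3) For EVERY `j`, `e` the parity conjecture holds for a positive proportion of the quadratic twists of `E_{j,e}`:
at least `c / 2 = 0.2097...` for all `E_{0,e}`, at least `45 η / 256 > 0.0507` for `X_0(21)`.
(4) For every infinite set `T` of squarefree `e` and every `n`, for 100% of the `d`: if `e d ∈ Fam 0` for infinitely
many `e ∈ T`, then Q1 holds, with rank `0` and `w = 1`, for at least `n` of the `E_{0,e}^d`, `e ∈ T`.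

Proof.  As in `MP_03e5d0_nt.FourTwistClasses` (the exact value of `L(E^m, 1)`, the complete `2`-descent, the joint law):
`H743/X17`, `H743/JL` (helper743), `H464/XB` (helper464), `H114/X21` (helper114), `H345/X24` (helper345), `H468/WJ`,
`H468/G4`.
-/

set_option autoImplicit false

open Filter Topology

namespace Pool.Agent.Results.MP_577099_nt.MostQuadraticTwists

open Pool.Agent.TH841.SH.D (Sha)

/-! ### the problem's definitions -/

/-- `V` is a global minimal equation: `Δ ≠ 0` and `|Δ|` is minimal among the integral equations -/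
def IsMinimal (V : WeierstrassCurve ℤ) : Prop :=
  V.Δ ≠ 0 ∧ ∀ (V' : WeierstrassCurve ℤ) (C : WeierstrassCurve.VariableChange ℚ),
    C • (V.map (Int.castRingHom ℚ)) = V'.map (Int.castRingHom ℚ) → |V.Δ| ≤ |V'.Δ|

/-- `a_p = p - #{affine points modulo p}` -/
noncomputable def ap (V : WeierstrassCurve ℤ) (p : ℕ) : ℤ :=
  p - (Nat.card {P : ZMod p × ZMod p //
    (V.map (Int.castRingHom (ZMod p))).toAffine.Equation P.1 P.2} : ℕ)

/-- `L` is entire and for `Re s > 1` it is the Hasse-Weil L-function of the minimal equation `V`, in the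
normalisation of the problem (centre `1/2`): the product over all primes `p` of
`(1 - a_p p^{-(s + 1/2)} + p^{-2s})⁻¹`, without the last term if `p ∣ Δ`. -/
def IsLSeries (V : WeierstrassCurve ℤ) (L : ℂ → ℂ) : Prop :=
  Differentiable ℂ L ∧ ∀ s : ℂ, 1 < s.re →
    HasProd (fun p : Nat.Primes => (1 - (ap V p : ℂ) * ((p : ℕ) : ℂ) ^ (-(s + 1 / 2)) +
      (if ((p : ℕ) : ℤ) ∣ V.Δ then 0 else ((p : ℕ) : ℂ) ^ (-(2 * s))))⁻¹) (L s)

/-- `Λ(s) = N^{s/2} (2π)^{-s} Γ(s + 1/2) L(s)` -/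
noncomputable def Lam (N : ℕ) (L : ℂ → ℂ) (s : ℂ) : ℂ :=
  (N : ℂ) ^ (s / 2) * (2 * (Real.pi : ℂ)) ^ (-s) * Complex.Gamma (s + 1 / 2) * L s

/-- `w` is a sign in a functional equation `Λ(s) = w Λ(1 - s)` in the critical strip, for some
conductor `N > 0` -/
def IsRootNumber (L : ℂ → ℂ) (w : ℤ) : Prop := (w = 1 ∨ w = -1) ∧
  ∃ N : ℕ, 0 < N ∧ ∀ s : ℂ, 0 ≤ s.re → s.re ≤ 1 → Lam N L s = w * Lam N L (1 - s)

/-- the rank of `W(ℚ)` -/
noncomputable def rank (W : WeierstrassCurve ℚ) : ℕ := Module.finrank ℤ W.toAffine.Point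

/-- the parity conjecture for `W`, and `w = 1`, `L(1/2) ≠ 0`; `L` is the entire L-series of a minimal equation -/
def Parity (W : WeierstrassCurve ℚ) : Prop :=
  ∃ (V : WeierstrassCurve ℤ) (C : WeierstrassCurve.VariableChange ℚ) (L : ℂ → ℂ),
    IsMinimal V ∧ C • W = V.map (Int.castRingHom ℚ) ∧ IsLSeries V L ∧ L (1 / 2) ≠ 0 ∧
    ∀ w : ℤ, IsRootNumber L w → (-1) ^ rank W = w ∧ w = 1

/-- the twist `E^d : y² = x³ + a d² x + b d³` of `E : y² = x³ + a x + b` -/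
def twist (a b : ℤ) (d : ℤ) : WeierstrassCurve ℚ :=
  ⟨0, 0, 0, ((a * d ^ 2 : ℤ) : ℚ), ((b * d ^ 3 : ℤ) : ℚ)⟩

/-- the number of the squarefree integers `d` with `|d| < X` and the property `P` -/
noncomputable def count (P : ℤ → Prop) (X : ℝ) : ℕ :=
  {d : ℤ | Squarefree d ∧ |(d : ℝ)| < X ∧ P d}.ncard

/-- `S(X)`: the number of the squarefree integers `d` with `|d| < X` -/
noncomputable def S (X : ℝ) : ℕ := count (fun _ => True) X

/-! ### the curves -/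

/-- the coefficients of `E_{j,e} : y² = x³ + A j e x + B j e`, the quadratic twist by `e` of `17a2` (`j = 0`),
`X_0(15)`, `X_0(21)`, `X_0(24)` (`j = 1, 2, 3`) -/
def A (j : Fin 4) (e : ℤ) : ℤ :=
  (match j with | 0 => -7371 | 1 => -12987 | 2 => -5211 | 3 => -351) * e ^ 2

/-- see `A` -/
def B (j : Fin 4) (e : ℤ) : ℤ :=
  (match j with | 0 => -240570 | 1 => -263466 | 2 => -31050 | 3 => 1890) * e ^ 3

/-- the parity conjecture holds for `W`, with `L(1/2) ≠ 0`, `w = 1`, only finitely many rational points, and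
`Ш[2^∞] = 0` -/
def Good (W : WeierstrassCurve ℚ) : Prop :=
  Parity W ∧ Finite W.toAffine.Point ∧ ∀ (n : ℕ) (x : Sha W), 2 ^ n • x = 0 → x = 0

/-- the squarefree integer in the class of `e d` modulo squares -/
def tw (e d : ℤ) : ℤ := e * d / (Int.gcd e d : ℤ) ^ 2

/-- the families, in terms of the squarefree integer `m`: for `j = 0` the root number of the twist by `m`
of `17a2` is `1` -/
def Fam (j : Fin 4) (m : ℤ) : Prop := match j with
  | 0 => (0 < m ∧ jacobiSym m 17 = 1) ∨ (m < 0 ∧ jacobiSym m 17 ≠ 1)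
  | 1 => m < 0 ∧ (m % 60 = 13 ∨ m % 60 = 37)
  | 2 => m < 0 ∧ m % 3 ≠ 1 ∧ (m % 7 = 0 ∨ m % 7 = 1 ∨ m % 7 = 2 ∨ m % 7 = 4)
  | 3 => m < 0 ∧ m % 24 = 13

/-- the class of `d₀`: the same sign, and the same class in `ℚ_p^×` modulo squares for `p ∈ P` -/
def Class (P : Finset ℕ) (d₀ d : ℤ) : Prop :=
  0 < d * d₀ ∧ ∀ (p : ℕ) [Fact p.Prime], p ∈ P → IsSquare ((d * d₀ : ℤ) : ℚ_[p])

/-- the pattern: `E_{0,e}^d`, `e ∈ T`, is Good exactly for `e ∈ U`; for `e ∈ T'` and all `j ≠ 0` for which the local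
condition holds at `d₀`, `E_{j,e}^d` is Good exactly for `e ∈ U'` -/
def Pattern (T U T' U' : Finset ℤ) (d₀ d : ℤ) : Prop :=
  (∀ e ∈ T, (Good (twist (A 0 e) (B 0 e) d) ↔ e ∈ U)) ∧
    ∀ e ∈ T', ∀ j : Fin 4, j ≠ 0 → Fam j (tw e d₀) → (Good (twist (A j e) (B j e) d) ↔ e ∈ U')

/-- the numbers of the odd prime factors of `d` in the residue classes modulo `q` -/
def cls (q : ℕ) (d : ℤ) (a : ℕ) : ℕ := ((d.natAbs.primeFactors.erase 2).filter fun p => p % q = a).card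

/-- the constant `(1 - 1/2) (1 - 1/8) (1 - 1/32) ⋯ = 0.4194...` -/
noncomputable def c : ℝ := ∏' i : ℕ, (1 - (1 / 2 : ℝ) ^ (2 * i + 1))

/-- the constant `(1 - 1/2) (1 - 1/4) (1 - 1/8) ⋯ = 0.2887...` -/
noncomputable def η : ℝ := ∏' i : ℕ, (1 - (1 / 2 : ℝ) ^ (i + 1))

/-- the limit of the proportion of the pattern -/
noncomputable def κ (T U T' U' : Finset ℤ) : ℝ :=
  c ^ U.card * (1 - c) ^ (T \ U).card * (η ^ U'.card * (1 - η) ^ (T' \ U').card)

section proof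

open Pool.Agent.H743.X17 (parts Parts Sys WM EM SH Nr num Rt)
open Pool.Agent.H743.JL (H4 al3 be3)
open Pool.Agent.N855.GF.Lc17 (Loc)
open Pool.Agent.H468.WM (opf cnt)
open Pool.Agent.H468.WJ (Pat kp)
open Pool.Agent.H468.G4

/-- the usual normalisation (centre `1`) -/
def IsL (V : WeierstrassCurve ℤ) (Λ : ℂ → ℂ) : Prop :=
  Differentiable ℂ Λ ∧ ∀ s : ℂ, 3 / 2 < s.re →
    HasProd (fun p : Nat.Primes => (1 - (ap V p : ℂ) * ((p : ℕ) : ℂ) ^ (-s) +
      (if ((p : ℕ) : ℤ) ∣ V.Δ then 0 else ((p : ℕ) : ℂ) ^ (1 - 2 * s)))⁻¹) (Λ s)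

lemma shift {V : WeierstrassCurve ℤ} {Λ : ℂ → ℂ} (h : IsL V Λ) :
    IsLSeries V (fun s => Λ (s + 1 / 2)) := by
  refine ⟨h.1.comp (differentiable_id.add_const _), fun s hs => ?_⟩
  have h3 := h.2 (s + 1 / 2) (by rw [Complex.add_re]; norm_num; linarith)
  have e : 1 - 2 * (s + 1 / 2) = -(2 * s) := by ring
  rw [e] at h3
  exact h3

lemma sign {L : ℂ → ℂ} (hL : L (1 / 2) ≠ 0) {w : ℤ} (h : IsRootNumber L w) : w = 1 := by
  obtain ⟨h3, N, hN, h5⟩ := h
  have h6 := h5 (1 / 2) (by norm_num) (by norm_num)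
  have e2 : (1 : ℂ) - 1 / 2 = 1 / 2 := by norm_num
  rw [e2] at h6
  have h7 : Lam N L (1 / 2) ≠ 0 := by
    unfold Lam
    have e3 : (1 / 2 : ℂ) + 1 / 2 = 1 := by norm_num
    rw [e3, Complex.Gamma_one, mul_one]
    refine mul_ne_zero (mul_ne_zero ?_ ?_) hL
    · rw [Ne, Complex.cpow_eq_zero_iff]
      rintro ⟨h8, -⟩
      have : N ≠ 0 := hN.ne'
      exact this (by exact_mod_cast h8)
    · rw [Ne, Complex.cpow_eq_zero_iff]
      rintro ⟨h8, -⟩
      have h9 : (Real.pi : ℂ) ≠ 0 := by exact_mod_cast Real.pi_ne_zero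
      exact (mul_ne_zero two_ne_zero h9) h8
  have h8 : (w : ℂ) = 1 := by
    have h9 : (1 - (w : ℂ)) * Lam N L (1 / 2) = 0 := by linear_combination h6
    have h10 := (mul_eq_zero.1 h9).resolve_right h7
    linear_combination -h10
  exact_mod_cast h8

lemma rank_zero {W : WeierstrassCurve ℚ} (h1 : Finite W.toAffine.Point) : rank W = 0 := by
  unfold rank
  have h3 : ∀ x : W.toAffine.Point, ∃ n : ℤ, n ≠ 0 ∧ n • x = 0 := by
    intro x
    exact isOfFinAddOrder_iff_zsmul_eq_zero.1 (isOfFinAddOrder_of_finite x)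
  rw [Module.finrank_eq_zero_iff]
  exact h3

lemma good_mk {W : WeierstrassCurve ℚ} {V : WeierstrassCurve ℤ} {Λ : ℂ → ℂ} (hV : IsMinimal V)
    (hC : ∃ C : WeierstrassCurve.VariableChange ℚ, C • W = V.map (Int.castRingHom ℚ))
    (hL : IsL V Λ) (h1 : Λ 1 ≠ 0) (hF : Pool.Agent.H743.X17.FinSha W) : Good W := by
  obtain ⟨C, hC⟩ := hC
  have h2 : (fun s => Λ (s + 1 / 2)) (1 / 2) ≠ 0 := by
    have e3 : (1 / 2 : ℂ) + 1 / 2 = 1 := by norm_num
    show Λ (1 / 2 + 1 / 2) ≠ 0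
    rw [e3]
    exact h1
  refine ⟨⟨V, C, fun s => Λ (s + 1 / 2), hV, hC, shift hL, h2, fun w hw => ?_⟩, hF⟩
  have h3 := sign h2 hw
  refine ⟨?_, h3⟩
  rw [rank_zero hF.1, pow_zero, h3]

/-! #### conductor 17 -/

lemma coef {e d : ℤ} (he : Squarefree e) (hd : Squarefree d) : ∃ g : ℕ, g ≠ 0 ∧
    A 0 e * d ^ 2 = -7371 * ((g : ℤ) ^ 2 * tw e d) ^ 2 ∧
    B 0 e * d ^ 3 = -240570 * ((g : ℤ) ^ 2 * tw e d) ^ 3 := by
  obtain ⟨g, hg, h⟩ := Pool.Agent.H743.X17.tw_spec he hd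
  have h' : e * d = (g : ℤ) ^ 2 * tw e d := h
  refine ⟨g, hg, ?_, ?_⟩
  · rw [← h']; unfold A; ring
  · rw [← h']; unfold B; ring

lemma good0 {e d : ℤ} (he : Squarefree e) (hd : Squarefree d) (h1 : tw e d ≠ 1) :
    Good (twist (A 0 e) (B 0 e) d) ↔ Sys (tw e d) := by
  have hm : Squarefree (tw e d) := tw_sf he hd
  obtain ⟨g, hg, ha, hb⟩ := coef he hd
  have hfs := Pool.Agent.H743.X17.finSha_sh parts hm hg ha hb
  refine ⟨fun h => hfs.1 h.2, fun h => ?_⟩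
  obtain ⟨C, hC⟩ := Pool.Agent.H743.X17.change hg ha hb
  obtain ⟨hO, f, y, hf, hy, h0, hv⟩ := Pool.Agent.H743.X17.main parts hm h1
  have hyo : Odd y := hy.2 ((Pool.Agent.H743.X17.finSha_iff parts hm).2 h)
  refine good_mk (V := WM (tw e d)) (Λ := f) (parts.min (tw e d) hm) ⟨C, hC⟩ hf ?_ (hfs.2 h)
  rw [hv]
  have hT : (Pool.Agent.H743.X17.TamProd (WM (tw e d)) : ℝ) ≠ 0 := by
    rw [Pool.Agent.H743.X17.tamProd_eq parts hm]
    split_ifs <;> simp
  have hO' : Pool.Agent.Y700.Omega (WM (tw e d)) ≠ 0 := hO.ne'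
  have hy' : (y : ℝ) ≠ 0 := by
    have : y ≠ 0 := by
      rintro rfl
      exact absurd hyo (by decide)
    exact_mod_cast this
  rw [Complex.ofReal_ne_zero]
  positivity

/-! #### `X_0(15)`, `X_0(21)`, `X_0(24)` -/

lemma A_succ (i : Fin 3) (e : ℤ) : A i.succ e = -27 * al3 i * e ^ 2 := by
  fin_cases i <;> norm_num [A, al3]

lemma B_succ (i : Fin 3) (e : ℤ) : B i.succ e = -54 * be3 i * e ^ 3 := by
  fin_cases i <;> norm_num [B, be3]

lemma fam_succ (i : Fin 3) (m : ℤ) : Fam i.succ m ↔ Pool.Agent.H743.JL.Fam i m := by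
  fin_cases i <;> exact Iff.rfl

lemma good4 (i : Fin 3) {e d : ℤ} (he : Squarefree e) (hd : Squarefree d)
    (hF : Pool.Agent.H743.JL.Fam i (tw e d)) :
    Good (twist (A i.succ e) (B i.succ e) d) ↔ H4 (tw e d) := by
  have hm : Squarefree (tw e d) := tw_sf he hd
  obtain ⟨g, hg, h⟩ := Pool.Agent.H743.X17.tw_spec he hd
  have h' : e * d = (g : ℤ) ^ 2 * tw e d := h
  have hq : (e : ℚ) * d = (g : ℚ) ^ 2 * (tw e d : ℤ) := by exact_mod_cast congrArg (fun n : ℤ => (n : ℚ)) h'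
  have hgq : (g : ℚ) ≠ 0 := by exact_mod_cast hg
  have ha : ((A i.succ e * d ^ 2 : ℤ) : ℚ) = -27 * (al3 i : ℚ) * ((g : ℚ) ^ 2 * (tw e d : ℤ)) ^ 2 := by
    rw [A_succ, ← hq]
    push_cast
    ring
  have hb : ((B i.succ e * d ^ 3 : ℤ) : ℚ) = -54 * (be3 i : ℚ) * ((g : ℚ) ^ 2 * (tw e d : ℤ)) ^ 3 := by
    rw [B_succ, ← hq]
    push_cast
    ring
  obtain ⟨h1, h2, h3, Λ, h4, h5⟩ := short i hm hF hgq ha hb
  exact ⟨fun h => h1.1 h.2, fun h => good_mk h2 h3 h4 (h5 h) (h1.2 h)⟩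

lemma fin4 {j : Fin 4} (hj : j ≠ 0) : ∃ i : Fin 3, j = i.succ := by
  obtain ⟨i, hi⟩ := Fin.exists_succ_eq.2 hj
  exact ⟨i, hi.symm⟩

lemma fam_neg {j : Fin 4} (hj : j ≠ 0) {m : ℤ} (h : Fam j m) : m < 0 := by
  obtain ⟨i, rfl⟩ := fin4 hj
  fin_cases i <;> exact h.1

lemma cls_eq (q : ℕ) (m : ℤ) : cls q m = cnt q (opf m) := rfl

lemma class_eq (P : Finset ℕ) (d₀ d : ℤ) : Class P d₀ d ↔ Loc True P d₀ d :=
  ⟨fun h => ⟨fun _ => h.1, h.2⟩, fun h => ⟨h.1 trivial, h.2⟩⟩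

lemma pattern_iff {P : Finset ℕ} {d₀ : ℤ} {T T' : Finset ℤ} (hP2 : {2, 3, 5, 7, 17} ⊆ P)
    (hd₀ : Squarefree d₀) (hT : ∀ e ∈ T, Squarefree e ∧ Fam 0 (tw e d₀))
    (hT' : ∀ e ∈ T', Squarefree e ∧ ∃ j, j ≠ 0 ∧ Fam j (tw e d₀)) (U U' : Finset ℤ) {d : ℤ}
    (hd : Squarefree d) (hdT : d ∉ T) (h : Loc True P d₀ d) :
    Pattern T U T' U' d₀ d ↔ Pat T U T' U' d := by
  have key : ∀ (i : Fin 3) (e : ℤ), e ∈ T' → Fam i.succ (tw e d₀) →
      (Good (twist (A i.succ e) (B i.succ e) d) ↔ H4 (tw e d)) := by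
    intro i e he hf
    refine good4 i (hT' e he).1 hd ?_
    exact fam_cls i (hT' e he).1 hd₀ hd (hP2 (by simp)) (hP2 (by simp)) (hP2 (by simp))
      (hP2 (by simp)) h ((fam_succ i _).1 hf)
  have key0 : ∀ e ∈ T, (Good (twist (A 0 e) (B 0 e) d) ↔ Sys (tw e d)) := by
    intro e he
    refine good0 (hT e he).1 hd fun h1 => hdT ?_
    rw [Pool.Agent.H743.X17.tw_one (hT e he).1 hd h1]
    exact he
  constructor
  · rintro ⟨h1, h2⟩
    refine ⟨fun e he => ?_, fun e he => ?_⟩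
    · exact (key0 e he).symm.trans (h1 e he)
    · obtain ⟨-, j, hj, hf⟩ := hT' e he
      obtain ⟨i, rfl⟩ := fin4 hj
      exact (key i e he hf).symm.trans (h2 e he _ hj hf)
  · rintro ⟨h1, h2⟩
    refine ⟨fun e he => ?_, fun e he j hj hf => ?_⟩
    · exact (key0 e he).trans (h1 e he)
    · obtain ⟨i, rfl⟩ := fin4 hj
      exact (key i e he hf).trans (h2 e he)

lemma main {P : Finset ℕ} {d₀ : ℤ} {T T' : Finset ℤ} (hP : ∀ p ∈ P, p.Prime)
    (hP2 : {2, 3, 5, 7, 17} ⊆ P) (hd₀ : Squarefree d₀)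
    (hT : ∀ e ∈ T, Squarefree e ∧ Fam 0 (tw e d₀))
    (hT' : ∀ e ∈ T', Squarefree e ∧ ∃ j, j ≠ 0 ∧ Fam j (tw e d₀)) {U U' : Finset ℤ} (hU : U ⊆ T)
    (hU' : U' ⊆ T') :
    Tendsto (fun X : ℝ => (count (fun d => Class P d₀ d ∧ Pattern T U T' U' d₀ d) X : ℝ) /
      count (Class P d₀) X) atTop (𝓝 (κ T U T' U')) ∧
    ∀ q : ℕ, 0 < q → ∀ ε : ℝ, 0 < ε → ∃ X₀ : ℝ, ∀ X : ℝ, X₀ ≤ X → ∀ V : Set (ℕ → ℕ),
      |(count (fun d => Class P d₀ d ∧ Pattern T U T' U' d₀ d ∧ cls q d ∈ V) X : ℝ) -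
        κ T U T' U' * count (fun d => Class P d₀ d ∧ cls q d ∈ V) X| ≤
          ε * count (Class P d₀) X := by
  have h17 : 17 ∈ P := hP2 (by simp)
  obtain ⟨δ, X₁, hδ, hlow⟩ := low P d₀ hP h17 hd₀
  have hcl : Class P d₀ = Loc True P d₀ := funext fun d => propext (class_eq P d₀ d)
  have base : ∀ q : ℕ, 0 < q → ∀ ε : ℝ, 0 < ε → ∃ X₀ : ℝ, ∀ X : ℝ, X₀ ≤ X → ∀ V : Set (ℕ → ℕ),
      |(Nr (fun d => Loc True P d₀ d ∧ Pattern T U T' U' d₀ d ∧ cnt q (opf d) ∈ V) X : ℝ) -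
        κ T U T' U' * Nr (fun d => Loc True P d₀ d ∧ cnt q (opf d) ∈ V) X| ≤ ε * X := by
    intro q hq ε hε
    exact law T T' P d₀ (fun e he => hT e he) (fun e he => ⟨(hT' e he).1, by
      obtain ⟨-, j, hj, hf⟩ := hT' e he
      exact fam_neg hj hf⟩) hP h17 hd₀ hq hU hU' T
      (fun d hd hdT h => pattern_iff hP2 hd₀ hT hT' U U' hd hdT h) ε hε
  constructor
  · rw [hcl]
    refine lim (Loc True P d₀) (Pattern T U T' U' d₀) _ hδ hlow fun ε hε => ?_
    obtain ⟨X₀, h⟩ := base 1 one_pos ε hε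
    refine ⟨X₀, fun X hX => ?_⟩
    have h1 := h X hX Set.univ
    simpa only [Set.mem_univ, and_true] using h1
  · intro q hq ε hε
    obtain ⟨X₀, h⟩ := base q hq (ε * δ) (by positivity)
    refine ⟨max (max X₀ X₁) 0, fun X hX V => ?_⟩
    have a1 : X₀ ≤ X := (le_max_left _ _).trans ((le_max_left _ _).trans hX)
    have a2 : X₁ ≤ X := (le_max_right _ _).trans ((le_max_left _ _).trans hX)
    have h1 := h X a1 V
    have h2 := hlow X a2
    rw [hcl]
    refine le_trans h1 ?_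
    calc ε * δ * X = ε * (δ * X) := by ring
      _ ≤ ε * (Nr (Loc True P d₀) X : ℝ) := mul_le_mul_of_nonneg_left h2 hε.le

lemma c_pos : 0 < c := by
  have h : 0.4194 < c := Pool.Agent.H743.X17.c2_bounds.1
  linarith

lemma η_pos : 0 < η := by
  have h : 0.2887 < η := Pool.Agent.N916.GB.eta_bounds.1
  linarith

lemma lowF (F : Finset (Fin 4 × ℤ)) {d₀ : ℤ} (hd₀ : Squarefree d₀)
    (hF : ∀ f ∈ F, Squarefree f.2 ∧ Fam f.1 (tw f.2 d₀)) : ∃ δ X₀ : ℝ, 0 < δ ∧ ∀ X : ℝ, X₀ ≤ X →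
      δ * X ≤ (Nr (fun d => ∀ f ∈ F, Good (twist (A f.1 f.2) (B f.1 f.2) d)) X : ℝ) := by
  classical
  obtain ⟨P, hPd⟩ : ∃ P : Finset ℕ, P = {2, 3, 5, 7, 17} := ⟨_, rfl⟩
  have hP : ∀ p ∈ P, p.Prime := by
    intro p hp
    rw [hPd] at hp
    simp only [Finset.mem_insert, Finset.mem_singleton] at hp
    rcases hp with rfl | rfl | rfl | rfl | rfl <;> norm_num
  obtain ⟨T, hT⟩ : ∃ T : Finset ℤ, T = (F.filter fun f => f.1 = 0).image Prod.snd := ⟨_, rfl⟩
  obtain ⟨T', hT'⟩ : ∃ T' : Finset ℤ, T' = (F.filter fun f => f.1 ≠ 0).image Prod.snd := ⟨_, rfl⟩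
  have mT : ∀ e ∈ T, Squarefree e ∧ Fam 0 (tw e d₀) := by
    intro e he
    rw [hT, Finset.mem_image] at he
    obtain ⟨f, hf, rfl⟩ := he
    rw [Finset.mem_filter] at hf
    have := hF f hf.1
    rw [hf.2] at this
    exact this
  have mT' : ∀ e ∈ T', Squarefree e ∧ ∃ j, j ≠ 0 ∧ Fam j (tw e d₀) := by
    intro e he
    rw [hT', Finset.mem_image] at he
    obtain ⟨f, hf, rfl⟩ := he
    rw [Finset.mem_filter] at hf
    exact ⟨(hF f hf.1).1, f.1, hf.2, (hF f hf.1).2⟩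
  obtain ⟨h1, -⟩ := main hP (by rw [hPd]) hd₀ mT mT' (Finset.Subset.refl T) (Finset.Subset.refl T')
  obtain ⟨δ, X₁, hδ, hlow⟩ := low P d₀ hP (by rw [hPd]; simp) hd₀
  have hκ : 0 < κ T T T' T' := by
    unfold κ
    rw [Finset.sdiff_self, Finset.sdiff_self, Finset.card_empty, pow_zero, pow_zero, mul_one,
      mul_one]
    exact mul_pos (pow_pos c_pos _) (pow_pos η_pos _)
  have hcl : Class P d₀ = Loc True P d₀ := funext fun d => propext (class_eq P d₀ d)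
  rw [hcl] at h1
  have h2 := h1.eventually (lt_mem_nhds (by linarith : κ T T T' T' / 2 < κ T T T' T'))
  obtain ⟨X₂, h3⟩ := eventually_atTop.1 h2
  refine ⟨κ T T T' T' / 2 * δ, max (max X₁ X₂) 1, by positivity, fun X hX => ?_⟩
  have a1 : X₁ ≤ X := (le_max_left _ _).trans ((le_max_left _ _).trans hX)
  have a2 : X₂ ≤ X := (le_max_right _ _).trans ((le_max_left _ _).trans hX)
  have a3 : 1 ≤ X := (le_max_right _ _).trans hX
  have b1 := hlow X a1
  have hN : 0 < (Nr (Loc True P d₀) X : ℝ) := lt_of_lt_of_le (by positivity) b1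
  have b2 : κ T T T' T' / 2 <
      (count (fun d => Loc True P d₀ d ∧ Pattern T T T' T' d₀ d) X : ℝ) / Nr (Loc True P d₀) X :=
    h3 X a2
  rw [lt_div_iff₀ hN] at b2
  have b3 : (count (fun d => Loc True P d₀ d ∧ Pattern T T T' T' d₀ d) X : ℝ) ≤
      Nr (fun d => ∀ f ∈ F, Good (twist (A f.1 f.2) (B f.1 f.2) d)) X := by
    refine Nat.cast_le.2 (Pool.Agent.H743.X17.Nr_mono (fun d hd h f hf => ?_) X)
    obtain ⟨-, p1, p2⟩ := h
    by_cases h0 : f.1 = 0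
    · have hm : f.2 ∈ T := by
        rw [hT]
        exact Finset.mem_image.2 ⟨f, Finset.mem_filter.2 ⟨hf, h0⟩, rfl⟩
      have := (p1 _ hm).2 hm
      rw [h0]
      exact this
    · have hm : f.2 ∈ T' := by
        rw [hT']
        exact Finset.mem_image.2 ⟨f, Finset.mem_filter.2 ⟨hf, h0⟩, rfl⟩
      exact (p2 _ hm f.1 h0 (hF f hf).2).2 hm
  calc κ T T T' T' / 2 * δ * X = κ T T T' T' / 2 * (δ * X) := by ring
    _ ≤ κ T T T' T' / 2 * (Nr (Loc True P d₀) X : ℝ) := mul_le_mul_of_nonneg_left b1 (by positivity)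
    _ ≤ _ := b2.le.trans b3

/-- one member of each family -/
lemma seed (j : Fin 4) : ∃ s : ℤ, Squarefree s ∧ Fam j s := by
  have h3 : Squarefree (-3 : ℤ) := by
    rw [← Int.squarefree_natAbs]
    exact (by norm_num : Nat.Prime 3).squarefree
  have h23 : Squarefree (-23 : ℤ) := by
    rw [← Int.squarefree_natAbs]
    exact (by norm_num : Nat.Prime 23).squarefree
  have h11 : Squarefree (-11 : ℤ) := by
    rw [← Int.squarefree_natAbs]
    exact (by norm_num : Nat.Prime 11).squarefree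
  fin_cases j
  · exact ⟨-3, h3, Or.inr ⟨by norm_num, by norm_num⟩⟩
  · exact ⟨-23, h23, by norm_num, by norm_num⟩
  · exact ⟨-3, h3, by norm_num, by norm_num, by norm_num⟩
  · exact ⟨-11, h11, by norm_num, by norm_num⟩

lemma each (j : Fin 4) {e : ℤ} (he : Squarefree e) :
    0 < liminf (fun X : ℝ => (count (fun d => Good (twist (A j e) (B j e) d)) X : ℝ) / S X) atTop := by
  obtain ⟨s, hs, hf⟩ := seed j
  have e1 : tw e (tw e s) = s := Pool.Agent.H743.X17.tw_tw he hs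
  obtain ⟨δ, X₀, hδ, h⟩ := lowF {(j, e)} (d₀ := tw e s) (tw_sf he hs) (fun f hf' => by
    rw [Finset.mem_singleton.1 hf']
    exact ⟨he, by rw [e1]; exact hf⟩)
  refine pos_liminf (X₁ := X₀) (fun d => Good (twist (A j e) (B j e) d)) hδ fun X hX => ?_
  refine (h X hX).trans (Nat.cast_le.2 (Pool.Agent.H743.X17.Nr_mono (fun d hd h => ?_) X))
  exact h (j, e) (Finset.mem_singleton_self _)

lemma each17 {e : ℤ} (he : Squarefree e) : c / 2 ≤ liminf (fun X : ℝ =>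
    (count (fun d => Good (twist (A 0 e) (B 0 e) d)) X : ℝ) / S X) atTop := by
  refine Pool.Agent.H743.X17.liminf_Nr
    (P := fun d => Sys (tw e d) ∧ ¬ Pool.Agent.H743.X17.Exc (tw e d))
    (Q := fun d => Good (twist (A 0 e) (B 0 e) d)) (R := fun _ => True)
    (fun d hd h => ?_) (fun _ _ _ => trivial)
    (Pool.Agent.H743.X17.lim_Nr (Pool.Agent.H468.G4.Cov.lim3 he))
  refine (good0 he hd fun h1 => h.2 ?_).2 h.1
  rw [h1]
  exact Or.inl rfl

/-! #### infinite sets -/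

lemma inf_set (T : Set ℤ) (n : ℕ) (hT : ∀ e ∈ T, Squarefree e) :
    Tendsto (fun X : ℝ => (count (fun d => {e | e ∈ T ∧ Fam 0 (tw e d)}.Infinite ∧
      ¬ ∃ F : Finset ℤ, (∀ e ∈ F, e ∈ T) ∧ F.card = n ∧
        ∀ e ∈ F, Good (twist (A 0 e) (B 0 e) d)) X : ℝ) / S X) atTop (𝓝 0) := by
  have h := Pool.Agent.H743.JL.hu T (n + 1) hT
  have h1 : Tendsto (fun X : ℝ => (Nr (fun d => {t | t ∈ T ∧ Rt (Pool.Agent.H743.JL.tw t d)}.Infinite ∧
      ¬ ∃ F : Finset ℤ, (∀ t ∈ F, t ∈ T) ∧ F.card = n + 1 ∧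
        ∀ t ∈ F, Sys (Pool.Agent.H743.JL.tw t d)) X : ℝ) / (Nr (fun _ => True) X : ℝ)) atTop (𝓝 0) :=
    Pool.Agent.H743.X17.lim_Nr h
  refine squeeze_zero (fun X => by positivity) (fun X => ?_) h1
  refine div_le_div_of_nonneg_right (Nat.cast_le.2 ?_) (Nat.cast_nonneg _)
  refine Pool.Agent.H743.X17.Nr_mono (fun d hd hh => ?_) X
  obtain ⟨h2, h3⟩ := hh
  refine ⟨h2, ?_⟩
  rintro ⟨F, k1, k2, k3⟩
  apply h3
  have k4 : n ≤ (F.erase d).card := by
    have := Finset.pred_card_le_card_erase (s := F) (a := d)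
    omega
  obtain ⟨G, k5, k6⟩ := Finset.exists_subset_card_eq k4
  refine ⟨G, fun e he => k1 e (Finset.mem_of_mem_erase (k5 he)), k6, fun e he => ?_⟩
  have k7 := k5 he
  rw [Finset.mem_erase] at k7
  have k8 := hT e (k1 e k7.2)
  refine (good0 k8 hd fun h1 => k7.1 ?_).2 (k3 e k7.2)
  exact (Pool.Agent.H743.X17.tw_one k8 hd h1).symm

/-! #### `X_0(21)` -/

lemma mem_of {s : Finset ℤ} {p : ℤ → Prop} {i : DecidablePred p} {a : ℤ} (h1 : a ∈ s) (h2 : p a) :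
    a ∈ @Finset.filter ℤ p i s := (@Finset.mem_filter ℤ p i s a).2 ⟨h1, h2⟩

lemma tw_one' (d : ℤ) : tw 1 d = d := by
  unfold tw
  rw [Int.one_gcd, one_mul]
  norm_num

open Classical in
lemma neg_half (X : ℕ) : 2 * ((Finset.Icc (-(X : ℤ)) X).filter fun m => m < 0 ∧ Squarefree m).card =
    num (fun _ => True) X := by
  have h1 : ((Finset.Icc (-(X : ℤ)) X).filter fun m => m < 0 ∧ Squarefree m).card =
      ((Finset.Icc (-(X : ℤ)) X).filter fun m => 0 < m ∧ Squarefree m).card := by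
    refine Finset.card_bij (fun m _ => -m) (fun m hm => ?_) (fun a _ b _ h => neg_injective h)
      (fun m hm => ?_)
    · rw [Finset.mem_filter, Finset.mem_Icc] at hm ⊢
      exact ⟨⟨by omega, by omega⟩, by omega, by
        rw [← Int.squarefree_natAbs, Int.natAbs_neg, Int.squarefree_natAbs]
        exact hm.2.2⟩
    · rw [Finset.mem_filter, Finset.mem_Icc] at hm
      refine ⟨-m, ?_, neg_neg m⟩
      rw [Finset.mem_filter, Finset.mem_Icc]
      exact ⟨⟨by omega, by omega⟩, by omega, by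
        rw [← Int.squarefree_natAbs, Int.natAbs_neg, Int.squarefree_natAbs]
        exact hm.2.2⟩
  have h2 : num (fun _ => True) X =
      ((Finset.Icc (-(X : ℤ)) X).filter fun m => m < 0 ∧ Squarefree m).card +
      ((Finset.Icc (-(X : ℤ)) X).filter fun m => 0 < m ∧ Squarefree m).card := by
    rw [← Finset.card_union_of_disjoint, ← Finset.filter_or]
    · unfold Pool.Agent.H743.X17.num
      refine Pool.Agent.H468.WM.filter_card_congr _ fun m _ => ?_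
      constructor
      · rintro ⟨b, -⟩
        rcases lt_trichotomy m 0 with h | h | h
        · exact Or.inl ⟨h, b⟩
        · exact absurd h b.ne_zero
        · exact Or.inr ⟨h, b⟩
      · rintro (⟨-, b⟩ | ⟨-, b⟩)
        · exact ⟨b, trivial⟩
        · exact ⟨b, trivial⟩
    · rw [Finset.disjoint_left]
      intro m h h'
      rw [Finset.mem_filter] at h h'
      omega
  rw [h2, ← h1]
  ring

open Classical in
lemma x21 : Tendsto (fun X : ℕ => (num (fun d => Fam 2 d ∧ H4 d) X : ℝ) / (num (fun _ => True) X : ℝ))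
    atTop (𝓝 (45 / 256 * η)) := by
  have hper : Pool.Agent.H114.X21.Per 21 (fun m => m % 3 ≠ 1 ∧
      (m % 7 = 0 ∨ m % 7 = 1 ∨ m % 7 = 2 ∨ m % 7 = 4)) := by
    intro x y hxy
    have h1 : (21 : ℤ) ∣ x - y := by exact_mod_cast hxy
    have h3 : x % 3 = y % 3 := by omega
    have h4 : x % 7 = y % 7 := by omega
    show (x % 3 ≠ 1 ∧ (x % 7 = 0 ∨ x % 7 = 1 ∨ x % 7 = 2 ∨ x % 7 = 4)) ↔
      (y % 3 ≠ 1 ∧ (y % 7 = 0 ∨ y % 7 = 1 ∨ y % 7 = 2 ∨ y % 7 = 4))
    rw [h3, h4]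
  have h3 : Squarefree (-3 : ℤ) := by
    rw [← Int.squarefree_natAbs]
    exact (by norm_num : Nat.Prime 3).squarefree
  have key := Pool.Agent.H114.X21.dens (L := 21) (by norm_num) hper (m₀ := -3) (by norm_num) h3
    ⟨by norm_num, by norm_num⟩
  have k2 := (Pool.Agent.H233.X21.t_SQD.mul key).mul_const (1 / 2 : ℝ)
  have e0 : (45 / 128 : ℝ) * Pool.Agent.N916.GB.eta * (1 / 2) = 45 / 256 * η := by
    show (45 / 128 : ℝ) * η * (1 / 2) = 45 / 256 * η
    ring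
  rw [e0] at k2
  refine k2.congr' ?_
  filter_upwards [eventually_ge_atTop 3] with X hX
  have aux : ∀ b b' n g g' k : ℕ, b = b' → b' ≠ 0 → g = g' → 2 * n = k →
      (b : ℝ) / n * (g / b') * (1 / 2) = (g' : ℝ) / k := by
    rintro b _ n g _ _ rfl hb rfl rfl
    have hb' : (b : ℝ) ≠ 0 := by exact_mod_cast hb
    by_cases hn : n = 0
    · rw [hn]
      simp
    · have hn' : (n : ℝ) ≠ 0 := by exact_mod_cast hn
      push_cast
      field_simp
  refine aux _ _ _ _ _ _ ?_ ?_ ?_ ?_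
  · exact Pool.Agent.H468.WM.filter_card_congr _ fun _ _ => Iff.rfl
  · exact (Finset.card_pos.2 ⟨-3, mem_of (Finset.mem_Icc.2 ⟨by omega, by omega⟩)
      ⟨by norm_num, h3, by norm_num, by norm_num⟩⟩).ne'
  · unfold Pool.Agent.H743.X17.num
    refine Pool.Agent.H468.WM.filter_card_congr _ fun m _ => ?_
    constructor
    · rintro ⟨b1, a, ⟨b2, b3⟩, b4⟩
      exact ⟨a, ⟨b1, b2, b3⟩, (Pool.Agent.H743.JL.gm m b1 (by
        rintro rfl
        norm_num at b3) a).1 b4⟩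
    · rintro ⟨a, ⟨b1, b2, b3⟩, b4⟩
      exact ⟨b1, a, ⟨b2, b3⟩, (Pool.Agent.H743.JL.gm m b1 (by
        rintro rfl
        norm_num at b3) a).2 b4⟩
  · rw [← neg_half X]

lemma x21_le : 45 / 256 * η ≤ liminf (fun X : ℝ =>
    (count (fun d => Good (twist (A 2 1) (B 2 1) d)) X : ℝ) / S X) atTop := by
  refine Pool.Agent.H743.X17.liminf_Nr (P := fun d => Fam 2 d ∧ H4 d)
    (Q := fun d => Good (twist (A 2 1) (B 2 1) d)) (R := fun _ => True)
    (fun d hd h => ?_) (fun _ _ _ => trivial) (Pool.Agent.H743.X17.lim_Nr x21)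
  exact (good4 1 squarefree_one hd (by rw [tw_one']; exact h.1)).2 (by rw [tw_one']; exact h.2)

end proof

theorem result :
    -- (1) the joint law in every class given by finitely many places
    (∀ (P : Finset ℕ) (d₀ : ℤ) (T T' : Finset ℤ), (∀ p ∈ P, p.Prime) → {2, 3, 5, 7, 17} ⊆ P →
      Squarefree d₀ → (∀ e ∈ T, Squarefree e ∧ Fam 0 (tw e d₀)) →
      (∀ e ∈ T', Squarefree e ∧ ∃ j, j ≠ 0 ∧ Fam j (tw e d₀)) → ∀ U ⊆ T, ∀ U' ⊆ T',
      0 < liminf (fun X : ℝ => (count (Class P d₀) X : ℝ) / S X) atTop ∧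
      Tendsto (fun X : ℝ => (count (fun d => Class P d₀ d ∧ Pattern T U T' U' d₀ d) X : ℝ) /
        count (Class P d₀) X) atTop (𝓝 (κ T U T' U')) ∧
      ∀ q : ℕ, 0 < q → ∀ ε : ℝ, 0 < ε → ∃ X₀ : ℝ, ∀ X : ℝ, X₀ ≤ X → ∀ V : Set (ℕ → ℕ),
        |(count (fun d => Class P d₀ d ∧ Pattern T U T' U' d₀ d ∧ cls q d ∈ V) X : ℝ) -
          κ T U T' U' * count (fun d => Class P d₀ d ∧ cls q d ∈ V) X| ≤
            ε * count (Class P d₀) X) ∧
    -- (2) all the curves of a finite set at once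
    (∀ (F : Finset (Fin 4 × ℤ)) (d₀ : ℤ), Squarefree d₀ →
      (∀ f ∈ F, Squarefree f.2 ∧ Fam f.1 (tw f.2 d₀)) →
      0 < liminf (fun X : ℝ =>
        (count (fun d => ∀ f ∈ F, Good (twist (A f.1 f.2) (B f.1 f.2) d)) X : ℝ) / S X) atTop) ∧
    -- (3) every curve
    (∀ (j : Fin 4) (e : ℤ), Squarefree e →
      0 < liminf (fun X : ℝ =>
        (count (fun d => Good (twist (A j e) (B j e) d)) X : ℝ) / S X) atTop) ∧
    (∀ e : ℤ, Squarefree e → c / 2 ≤ liminf (fun X : ℝ =>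
      (count (fun d => Good (twist (A 0 e) (B 0 e) d)) X : ℝ) / S X) atTop) ∧
    45 / 256 * η ≤ liminf (fun X : ℝ =>
      (count (fun d => Good (twist (A 2 1) (B 2 1) d)) X : ℝ) / S X) atTop ∧
    0.0507 < 45 / 256 * η ∧
    -- (4) infinite sets
    (∀ (T : Set ℤ) (n : ℕ), (∀ e ∈ T, Squarefree e) →
      Tendsto (fun X : ℝ => (count (fun d => {e | e ∈ T ∧ Fam 0 (tw e d)}.Infinite ∧
        ¬ ∃ F : Finset ℤ, (∀ e ∈ F, e ∈ T) ∧ F.card = n ∧
          ∀ e ∈ F, Good (twist (A 0 e) (B 0 e) d)) X : ℝ) / S X) atTop (𝓝 0)) ∧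
    0.4194 < c ∧ c < 0.4195 ∧ 0.2887 < η ∧ η < 0.2889 := by
  refine ⟨?_, ?_, fun j e he => each j he, fun e he => each17 he, x21_le, ?_, inf_set, Pool.Agent.H743.X17.c2_bounds.1,
    Pool.Agent.H743.X17.c2_bounds.2, Pool.Agent.N916.GB.eta_bounds.1,
    Pool.Agent.N916.GB.eta_bounds.2⟩
  · intro P d₀ T T' hP hP2 hd₀ hT hT' U hU U' hU'
    refine ⟨?_, main hP hP2 hd₀ hT hT' hU hU'⟩
    obtain ⟨δ, X₁, hδ, hlow⟩ := Pool.Agent.H468.G4.low P d₀ hP (hP2 (by simp)) hd₀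
    have hcl : Class P d₀ = Pool.Agent.N855.GF.Lc17.Loc True P d₀ :=
      funext fun d => propext (class_eq P d₀ d)
    rw [hcl]
    exact Pool.Agent.H468.G4.pos_liminf _ hδ hlow
  · intro F d₀ hd₀ hF
    obtain ⟨δ, X₁, hδ, hlow⟩ := lowF F hd₀ hF
    exact Pool.Agent.H468.G4.pos_liminf _ hδ hlow
  · have h : 0.2887 < η := Pool.Agent.N916.GB.eta_bounds.1
    norm_num at h ⊢
    linarith

end Pool.Agent.Results.MP_577099_nt.MostQuadraticTwists
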